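import Mathlib
import Pool.Agent.Q177.CW.Final
import Pool.Agent.Q177.CW.Mem
import Pool.Agent.Helper209.CX.C03
import Pool.Agent.Helper209.CX.K30
import Pool.Agent.Helper209.CX.K31

namespace Pool.Agent.Results.MP_c84763_mp.ExceedsWeyl
open MeasureTheory FourierTransform Filter Topology
open scoped ENNReal

/-- `ℝᵈ` with the Euclidean norm -/
def Rd (d : ℕ) : Type := EuclideanSpace ℝ (Fin d)

noncomputable instance (d : ℕ) : Norm (Rd d) :=
  (inferInstance : Norm (EuclideanSpace ℝ (Fin d)))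

/-- `ℝᵈ` carries Lebesgue measure, Mathlib's `volume` -/
noncomputable instance (d : ℕ) : MeasureSpace (Rd d) :=
  (inferInstance : MeasureSpace (EuclideanSpace ℝ (Fin d)))

/-- `L²(ℝᵈ; ℂ)` -/
def L2 (d : ℕ) : Type := Lp ℂ 2 (volume : Measure (Rd d))

noncomputable instance (d : ℕ) : AddCommGroup (L2 d) :=
  (inferInstance : AddCommGroup (Lp ℂ 2 (volume : Measure (Rd d))))

noncomputable instance (d : ℕ) : Module ℂ (L2 d) :=
  (inferInstance : Module ℂ (Lp ℂ 2 (volume : Measure (Rd d))))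

/-- the function `u` -/
noncomputable def fn {d : ℕ} (u : L2 d) : Rd d → ℂ :=
  ((show Lp ℂ 2 (volume : Measure (Rd d)) from u) : Rd d → ℂ)

/-- the unitary Fourier transform on `L²(E)`, `û(ξ) = ∫ e^{-2πi x·ξ} u(x) dx` -/
noncomputable def fourierE (E : Type) [NormedAddCommGroup E] [InnerProductSpace ℝ E]
    [FiniteDimensional ℝ E] [MeasurableSpace E] [BorelSpace E]
    (u : Lp ℂ 2 (volume : Measure E)) : Lp ℂ 2 (volume : Measure E) := 𝓕 u

/-- the unitary Fourier transform on `L²(ℝᵈ)` -/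
noncomputable def fourier {d : ℕ} (u : L2 d) : L2 d := fourierE (EuclideanSpace ℝ (Fin d)) u

/-- the function `û` -/
noncomputable def hat {d : ℕ} (u : L2 d) : Rd d → ℂ := fn (fourier u)

/-- `u ∈ H¹(ℝᵈ)`: `|ξ| û ∈ L²` -/
def InH1 {d : ℕ} (u : L2 d) : Prop := MemLp (fun ξ : Rd d => (‖ξ‖ : ℂ) * hat u ξ) 2 volume

/-- `∫ ∇u · conj ∇φ = ∫ (2π|ξ|)² û conj φ̂` -/
noncomputable def dirichlet {d : ℕ} (u φ : L2 d) : ℂ :=
  ∫ ξ : Rd d, (((2 * Real.pi * ‖ξ‖) ^ 2 : ℝ) : ℂ) * hat u ξ * (starRingEnd ℂ) (hat φ ξ)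

/-- `V u conj φ` -/
noncomputable def potential {d : ℕ} (V : Rd d → ℂ) (u φ : L2 d) (x : Rd d) : ℂ :=
  V x * fn u x * (starRingEnd ℂ) (fn φ x)

/-- the inner product `∫ f conj φ` -/
noncomputable def pairing {d : ℕ} (f φ : L2 d) : ℂ := ∫ x, fn f x * (starRingEnd ℂ) (fn φ x)

/-- `u ∈ D(H)` and `H u = f`, where `H = -h²Δ + V` is the m-sectorial operator of the form
`h² ∫ ∇u · conj ∇φ + ∫ V u conj φ` on `H¹(ℝᵈ)` -/
def IsHu {d : ℕ} (h : ℝ) (V : Rd d → ℂ) (u f : L2 d) : Prop :=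
  InH1 u ∧ ∀ φ : L2 d, InH1 φ → Integrable (potential V u φ) volume ∧
    ((h ^ 2 : ℝ) : ℂ) * dirichlet u φ + ∫ x, potential V u φ x = pairing f φ

/-- `u` is a generalised eigenvector for `E` (or `0`): `(H - E)ⁿ u = 0` for some `n` -/
def IsGen {d : ℕ} (h : ℝ) (V : Rd d → ℂ) (E : ℂ) (u : L2 d) : Prop :=
  ∃ (n : ℕ) (c : ℕ → L2 d), c 0 = u ∧ c n = 0 ∧ ∀ i < n, IsHu h V (c i) (c (i + 1) + E • c i)

/-- the generalised eigenspace of `E` -/
noncomputable def genSpace {d : ℕ} (h : ℝ) (V : Rd d → ℂ) (E : ℂ) : Submodule ℂ (L2 d) :=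
  Submodule.span ℂ {u | IsGen h V E u}

/-- the algebraic multiplicity of `E` (`0` if `E` is not an eigenvalue) -/
noncomputable def algMult {d : ℕ} (h : ℝ) (V : Rd d → ℂ) (E : ℂ) : ℕ :=
  Module.finrank ℂ (genSpace h V E)

/-- `δ(E)`, the distance from `E` to the half-line `[0,∞)` -/
noncomputable def delta (E : ℂ) : ℝ := Metric.infDist E {z : ℂ | 0 ≤ z.re ∧ z.im = 0}

/-- `∑_j |E_j|^{-σ} δ(E_j)^{γ+σ}`, each `E` counted with its algebraic multiplicity -/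
noncomputable def eigSum {d : ℕ} (h : ℝ) (V : Rd d → ℂ) (γ σ : ℝ) : ℝ≥0∞ :=
  ∑' E : ℂ, (algMult h V E : ℝ≥0∞) * ENNReal.ofReal (‖E‖ ^ (-σ) * delta E ^ (γ + σ))

/-- the potential `log(1/(1-|x|)) + i` on the unit ball, `0` outside -/
noncomputable def V (d : ℕ) (x : Rd d) : ℂ :=
  if ‖x‖ < 1 then ((-Real.log (1 - ‖x‖) : ℝ) : ℂ) + Complex.I else 0

theorem result (d : ℕ) (hd : 1 ≤ d) :
    (∀ p : ℝ, 0 < p → MemLp (V d) (ENNReal.ofReal p) volume) ∧
    (∀ (h : ℝ) (E : ℂ), 0 < h → 0 < delta E → Module.Finite ℂ (genSpace h (V d) E)) ∧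
    ∀ γ σ : ℝ, 0 < γ → 0 ≤ σ → σ ≤ (d : ℝ) / 2 →
      Tendsto (fun h : ℝ => ENNReal.ofReal (h ^ d) * eigSum h (V d) γ σ) (𝓝[>] 0) (𝓝 ⊤) := by
  have hd1 : (1 : ℝ) ≤ d := by exact_mod_cast hd
  have hmem : ∀ p : ℝ, 0 < p → MemLp (V d) (ENNReal.ofReal p) volume := fun p hp =>
    Q177.CW.Vp_memLp hd p hp
  let R : ℝ → Submodule ℂ (L2 d × L2 d) := fun h =>
    { carrier := {p | Helper209.CX.IsHu h (V d) p.1 p.2}
      add_mem' := fun {a b} ha hb => Helper209.CX.K31.isHu_add h (V d) a.1 b.1 a.2 b.2 ha hb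
      zero_mem' := Helper209.CX.K31.isHu_zero_zero h (V d)
      smul_mem' := fun c a ha => Helper209.CX.K31.isHu_smul h (V d) c a.1 a.2 ha }
  have hR : ∀ h, ∀ f : L2 d, ((0 : L2 d), f) ∈ R h → f = 0 := fun h f hf =>
    Helper209.CX.K31.isHu_zero h (V d) f hf
  choose G hG using fun (p : ℝ × ℂ) => Helper209.CX.K30.gen_submodule (R p.1) p.2
  have hspan : ∀ h E, genSpace h (V d) E = G (h, E) := by
    intro h E
    have : {u | IsGen h (V d) E u} = (G (h, E) : Set (L2 d)) := by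
      ext u
      exact (hG (h, E) u).symm
    rw [genSpace, this, Submodule.span_eq]
  have hfin : ∀ (h : ℝ) (E : ℂ), 0 < h → 0 < delta E → Module.Finite ℂ (genSpace h (V d) E) := by
    intro h E hh hE
    obtain ⟨C, hC, H⟩ := Helper209.CX.final_D d hd (3 / 4) (d / 2 + 1) (by norm_num) (by norm_num)
      (by linarith)
    have key := Helper209.CX.K30.gen_bound (R h) (hR h)
      (fun E => ‖E‖ ^ (-((d : ℝ) / 2 + 1)) * delta E ^ ((3 / 4 : ℝ) + (d / 2 + 1)))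
      (fun E => mul_nonneg (Real.rpow_nonneg (norm_nonneg _) _)
        (Real.rpow_nonneg Metric.infDist_nonneg _))
      (C * h ^ (-(d : ℝ)) * ∫ x, ‖V d x‖ ^ ((3 / 4 : ℝ) + d / 2))
      (fun N u A hli hu => H h hh (V d) (hmem (3 / 4 + d / 2) (by positivity)) N u A hli hu)
      (fun E => G (h, E)) (fun E => hG (h, E))
    rw [hspan]
    refine key.1 E ?_
    have hE0 : E ≠ 0 := by
      rintro rfl
      have : delta 0 = 0 := Metric.infDist_zero_of_mem (by simp)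
      exact absurd hE (by rw [this]; exact lt_irrefl 0)
    exact mul_pos (Real.rpow_pos_of_pos (norm_pos_iff.2 hE0) _) (Real.rpow_pos_of_pos hE _)
  refine ⟨hmem, hfin, ?_⟩
  intro γ σ hγ _ hσ
  obtain ⟨c, hc, hcore⟩ := Q177.CW.core (d := d) hd
  refine Q177.CW.final d hd (fun h E => algMult h (V d) E) c hc ?_ γ σ hγ hσ
  intro β hβ
  filter_upwards [hcore β hβ, self_mem_nhdsWithin] with h hcoreh hpos
  have hh : (0 : ℝ) < h := hpos
  obtain ⟨N, v, A, hli, hv, hE, hN⟩ := hcoreh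
  have hdel : ∀ E, Module.End.HasEigenvalue (Matrix.toLin' A) E → 0 < delta E := by
    intro E h1
    have h2 := (hE E h1).2
    have h3 : |E.im| ≤ delta E := Q177.CW.im_le_dl E
    have h4 := le_abs_self E.im
    linarith
  obtain ⟨S, hS1, hS2⟩ := Q177.CW.count_lower (R h) v hli A hv (fun E => genSpace h (V d) E)
    (fun E u hu => Submodule.subset_span hu) (fun E h1 => hfin h E hh (hdel E h1))
  refine ⟨S, fun E h1 => hE E (hS1 E h1), hN.trans ?_⟩
  have : ((N : ℕ) : ℝ) ≤ ((∑ E ∈ S, algMult h (V d) E : ℕ) : ℝ) := by exact_mod_cast hS2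
  rwa [Nat.cast_sum] at this

end Pool.Agent.Results.MP_c84763_mp.ExceedsWeyl
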